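import Pool.Agent.X114.HC.HC4

/-!
MP_2744a5_an, Q1 (if `λ C_φ` is hypercyclic on the little Lipschitz space of a rooted tree and
`|λ| ≤ 1`, must the complement of the range of `φ` be infinite?). The answer is no: we construct a
rooted tree and a bijective `φ` such that `C_φ` itself (`λ = 1`) is hypercyclic.

The vertices are `ℤ × ℕ` and `φ (i, y) = (i + 1, y)`. The tree is a comb whose `i`-th tooth runs
through `{i} × ℕ` in the order given by a permutation `σ |i|` of `ℕ`; the bases of consecutive teeth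
are joined. The permutations change slowly with `i`, they are the identity at `i = 0`, and at
infinitely many times they have thrown a long initial segment to far apart positions.
-/

set_option autoImplicit false

namespace Pool.Agent.Results.MP_2744a5_an.BijectiveSymbol

open Pool.Agent.X114.HC

/-- The graph `G` with distinguished vertex `o` is a rooted tree: it is connected without cycles,
locally finite, infinite, and only the root may have fewer than two neighbours. -/
structure IsRootedTree {V : Type} (G : SimpleGraph V) (o : V) : Prop where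
  isTree : G.IsTree
  locallyFinite : ∀ v, (G.neighborSet v).Finite
  twoNeighbors : ∀ v, v ≠ o → (G.neighborSet v).Nontrivial
  infinite : Infinite V

/-- `w` is the parent `v⁻` of `v`: the neighbour of `v` that is closer to the root `o`. -/
def IsParent {V : Type} (G : SimpleGraph V) (o v w : V) : Prop :=
  G.Adj v w ∧ G.dist o v = G.dist o w + 1

/-- The little Lipschitz space: for every `ε > 0` only finitely many `v` have
`|f(v) - f(v⁻)| ≥ ε`. -/
def L0 {V : Type} (G : SimpleGraph V) (o : V) : Set (V → ℂ) :=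
  {f | ∀ ε : ℝ, 0 < ε → {v | ∃ w, IsParent G o v w ∧ ε ≤ ‖f v - f w‖}.Finite}

/-- The norm `max (|f(o)|, sup_{v ≠ o} |f(v) - f(v⁻)|)`. -/
noncomputable def lipNorm {V : Type} (G : SimpleGraph V) (o : V) (f : V → ℂ) : ℝ :=
  max ‖f o‖ (⨆ p : {p : V × V // IsParent G o p.1 p.2}, ‖f p.1.1 - f p.1.2‖)

/-- `C_φ` maps the little Lipschitz space boundedly into itself. -/
def IsCompositionOperator {V : Type} (G : SimpleGraph V) (o : V) (φ : V → V) : Prop :=
  (∀ f ∈ L0 G o, f ∘ φ ∈ L0 G o) ∧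
    ∃ C : ℝ, ∀ f ∈ L0 G o, lipNorm G o (f ∘ φ) ≤ C * lipNorm G o f

/-- `z C_φ` is hypercyclic: some `f` has a dense orbit `{zⁿ (f ∘ φⁿ) : n ≥ 0}`. -/
def IsHypercyclic {V : Type} (G : SimpleGraph V) (o : V) (φ : V → V) (z : ℂ) : Prop :=
  ∃ f ∈ L0 G o, ∀ g ∈ L0 G o, ∀ ε : ℝ, 0 < ε →
    ∃ n : ℕ, lipNorm G o (z ^ n • (f ∘ φ^[n]) - g) < ε

theorem NL_of {sig : ℕ → Equiv.Perm ℕ} {f : ℤ × ℕ → ℂ} {c : ℝ} (h1 : ‖f (0, 0)‖ ≤ c)
    (h2 : ∀ v w, IsParent (comb sig) (0, 0) v w → ‖f v - f w‖ ≤ c) : NL sig f c := by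
  rw [NL_iff]
  refine ⟨h1, fun u v huv => ?_⟩
  rcases comb_isTree.dist_eq_dist_add_one_of_adj (0, 0) huv with h | h
  · exact h2 u v ⟨huv, h⟩
  · rw [norm_sub_rev]; exact h2 v u ⟨huv.symm, h⟩

theorem lipNorm_le {sig : ℕ → Equiv.Perm ℕ} {f : ℤ × ℕ → ℂ} {c : ℝ} (h : NL sig f c) :
    lipNorm (comb sig) (0, 0) f ≤ c := by
  refine max_le h.root (Real.iSup_le (fun p => ?_) h.nonneg)
  exact (NL_iff.1 h).2 _ _ p.2.1

theorem NL_lipNorm {sig : ℕ → Equiv.Perm ℕ} {f : ℤ × ℕ → ℂ} (h : Lit sig f) :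
    NL sig f (lipNorm (comb sig) (0, 0) f) := by
  refine NL_of (le_max_left _ _) fun v w hvw => ?_
  refine le_trans ?_ (le_max_right _ _)
  obtain ⟨F, hF, hfF⟩ := h 1 one_pos
  obtain ⟨K, hK⟩ := hF.bdd
  have hbdd : BddAbove (Set.range fun p : {p : (ℤ × ℕ) × (ℤ × ℕ) //
      IsParent (comb sig) (0, 0) p.1 p.2} => ‖f p.1.1 - f p.1.2‖) := by
    refine ⟨1 + (K + K), ?_⟩
    rintro _ ⟨⟨⟨v, w⟩, hp⟩, rfl⟩
    have h1 := (NL_iff.1 hfF).2 v w hp.1
    have e : f v - f w = (f v - F v - (f w - F w)) + (F v - F w) := by ring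
    show ‖f v - f w‖ ≤ _
    rw [e]
    exact (norm_add_le _ _).trans (add_le_add h1 ((norm_sub_le _ _).trans
      (add_le_add (hK _) (hK _))))
  exact le_ciSup hbdd ⟨(v, w), hvw⟩

theorem mem_L0_iff {sig : ℕ → Equiv.Perm ℕ} (h0 : sig 0 = 1) (f : ℤ × ℕ → ℂ) :
    f ∈ L0 (comb sig) (0, 0) ↔ Lit sig f := by
  constructor
  · intro hf
    refine lit_of_box h0 f fun ε hε => ?_
    have hfin := hf ε hε
    refine ⟨∑ v ∈ hfin.toFinset, (v.1.natAbs + pos sig v + 1), fun u v huv hge => ?_⟩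
    have key : ∀ u v, IsParent (comb sig) (0, 0) u v → ε ≤ ‖f u - f v‖ →
        u.1.natAbs + pos sig u + 1 ≤ ∑ v ∈ hfin.toFinset, (v.1.natAbs + pos sig v + 1) ∧
        v.1.natAbs ≤ u.1.natAbs + 1 ∧ pos sig v ≤ pos sig u + 1 := by
      intro u v hp hge
      refine ⟨Finset.single_le_sum (f := fun v : ℤ × ℕ => v.1.natAbs + pos sig v + 1)
        (fun _ _ => Nat.zero_le _) (hfin.mem_toFinset.2 ⟨v, hp, hge⟩), ?_⟩
      rcases hp.1 with ⟨e1, e2⟩ | ⟨e1, e2, e3⟩ <;> omega
    rcases comb_isTree.dist_eq_dist_add_one_of_adj (0, 0) huv with h | h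
    · have := key u v ⟨huv, h⟩ hge
      omega
    · have := key v u ⟨huv.symm, h⟩ (by rwa [norm_sub_rev])
      omega
  · intro hf ε hε
    obtain ⟨F, hF, hfF⟩ := hf (ε / 2) (by positivity)
    have hfin : ({v | F v ≠ 0} ∪ ⋃ w ∈ {v | F v ≠ 0}, (comb sig).neighborSet w).Finite :=
      hF.finite.union (hF.finite.biUnion fun w _ => comb_neighbors_finite w)
    refine hfin.subset ?_
    rintro v ⟨w, hp, hge⟩
    by_contra hc
    simp only [Set.mem_union, Set.mem_iUnion, not_or, not_exists] at hc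
    have h1 : F v = 0 := by
      by_contra h
      exact hc.1 h
    have h2 : F w = 0 := by
      by_contra h
      exact hc.2 w h hp.1.symm
    have h3 := (NL_iff.1 hfF).2 v w hp.1
    simp only [h1, h2, sub_zero] at h3
    linarith

theorem result : ∃ (V : Type) (G : SimpleGraph V) (o : V) (φ : V → V),
    IsRootedTree G o ∧ IsCompositionOperator G o φ ∧ IsHypercyclic G o φ 1 ∧
      Function.Bijective φ := by
  obtain ⟨sig, h0, hcl, hsig⟩ := exists_schedule
  set φ : ℤ × ℕ → ℤ × ℕ := fun v => (v.1 + 1, v.2) with hφ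
  have hiter : ∀ n : ℕ, ∀ v, φ^[n] v = (v.1 + n, v.2) := by
    intro n
    induction n with
    | zero => intro v; simp
    | succ n ih =>
      intro v
      rw [Function.iterate_succ_apply', ih]
      simp only [hφ]
      push_cast
      rw [add_assoc]
  refine ⟨ℤ × ℕ, comb sig, (0, 0), φ, ⟨comb_isTree, comb_neighbors_finite,
    fun v _ => comb_neighbors_nontrivial v, inferInstance⟩, ⟨?_, 3, ?_⟩, ?_, ?_, ?_⟩
  · intro f hf
    rw [mem_L0_iff h0] at hf ⊢
    intro ε hε
    obtain ⟨F, hF, hfF⟩ := hf (ε / 3) (by positivity)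
    refine ⟨fun v => F (v.1 + 1, v.2), hF.shift 1, ?_⟩
    have := hfF.shift h0 hcl
    have e : 3 * (ε / 3) = ε := by ring
    rw [e] at this
    exact this
  · intro f hf
    rw [mem_L0_iff h0] at hf
    exact lipNorm_le ((NL_lipNorm hf).shift h0 hcl)
  · obtain ⟨f, hf, hdense⟩ := exists_hypercyclic h0 hcl hsig
    refine ⟨f, (mem_L0_iff h0 f).2 hf, fun g hg ε hε => ?_⟩
    rw [mem_L0_iff h0] at hg
    obtain ⟨n, hn⟩ := hdense g hg (ε / 2) (by positivity)
    refine ⟨n, lt_of_le_of_lt (lipNorm_le (c := ε / 2) ?_) (by linarith)⟩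
    convert hn using 1
    funext v
    simp [hiter]
  · intro u v h
    simp only [hφ, Prod.mk.injEq] at h
    exact Prod.ext (by omega) h.2
  · intro v
    exact ⟨(v.1 - 1, v.2), by simp [hφ]⟩

end Pool.Agent.Results.MP_2744a5_an.BijectiveSymbol
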